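import Pool.Agent.T6.H88.EN.Defs

/-!
# Neighbour packings: covered volume and number of centres (MP_def58e_co)
-/

set_option autoImplicit false

namespace Pool.Agent.T6.H88.EN

open MeasureTheory Filter Metric

lemma finite_centres (C : Set E3) (hC : ∀ x ∈ C, ∀ y ∈ C, x ≠ y → 2 ≤ dist x y) (r : ℝ) :
    (C ∩ closedBall 0 r).Finite := by
  have htb : TotallyBounded (closedBall (0 : E3) r) := (isCompact_closedBall 0 r).totallyBounded
  obtain ⟨t, ht, hsub⟩ := Metric.totallyBounded_iff.1 htb 1 one_pos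
  refine Set.Finite.subset (ht.biUnion (t := fun y => C ∩ ball y 1) fun y _ => ?_) ?_
  · apply Set.Subsingleton.finite
    rintro a ⟨ha, ha1⟩ b ⟨hb, hb1⟩
    by_contra hab
    have h1 := hC a ha b hb hab
    rw [mem_ball] at ha1 hb1
    have h2 := dist_triangle_right a b y
    linarith
  · rintro x ⟨hx, hx1⟩
    obtain ⟨y, hy, hxy⟩ := Set.mem_iUnion₂.1 (hsub hx1)
    exact Set.mem_iUnion₂.2 ⟨y, hy, hx, hxy⟩

/-- the finite set of centres in a ball -/
noncomputable def cen (C : Set E3) (hC : ∀ x ∈ C, ∀ y ∈ C, x ≠ y → 2 ≤ dist x y) (r : ℝ) :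
    Finset E3 := (finite_centres C hC r).toFinset

lemma mem_cen {C : Set E3} {hC : ∀ x ∈ C, ∀ y ∈ C, x ≠ y → 2 ≤ dist x y} {r : ℝ} {x : E3} :
    x ∈ cen C hC r ↔ x ∈ C ∧ ‖x‖ ≤ r := by
  rw [cen, Set.Finite.mem_toFinset, Set.mem_inter_iff, mem_closedBall, dist_zero_right]

lemma vol_ball_real (x : E3) (R : ℝ) (hR : 0 ≤ R) :
    volume.real (ball x R) = R ^ 3 * (Real.pi * 4 / 3) := by
  rw [measureReal_def, EuclideanSpace.volume_ball_fin_three, ENNReal.toReal_mul,
    ENNReal.toReal_pow, ENNReal.toReal_ofReal hR, ENNReal.toReal_ofReal (by positivity)]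

lemma vol_closedBall_real (x : E3) (R : ℝ) (hR : 0 ≤ R) :
    volume.real (closedBall x R) = R ^ 3 * (Real.pi * 4 / 3) := by
  rw [measureReal_def, EuclideanSpace.volume_closedBall_fin_three, ENNReal.toReal_mul,
    ENNReal.toReal_pow, ENNReal.toReal_ofReal hR, ENNReal.toReal_ofReal (by positivity)]

lemma covered_le (C : Set E3) (hC : ∀ x ∈ C, ∀ y ∈ C, x ≠ y → 2 ≤ dist x y) (R : ℝ)
    (hR : 0 < R) : covered C R ≤ (cen C hC (R + 1)).card / R ^ 3 := by
  unfold covered
  rw [vol_ball R hR.le, div_le_div_iff₀ (by positivity) (by positivity)]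
  have hsub : ball (0 : E3) R ∩ ⋃ x ∈ C, closedBall x 1 ⊆
      ⋃ x ∈ cen C hC (R + 1), closedBall x 1 := by
    rintro y ⟨hy, hy2⟩
    obtain ⟨x, hx, hxy⟩ := Set.mem_iUnion₂.1 hy2
    refine Set.mem_iUnion₂.2 ⟨x, mem_cen.2 ⟨hx, ?_⟩, hxy⟩
    rw [mem_ball, dist_zero_right] at hy
    rw [mem_closedBall, dist_comm] at hxy
    calc ‖x‖ = ‖(x - y) + y‖ := by rw [sub_add_cancel]
      _ ≤ ‖x - y‖ + ‖y‖ := norm_add_le _ _
      _ ≤ R + 1 := by rw [dist_eq_norm] at hxy; linarith
  have h1 : volume.real (ball (0 : E3) R ∩ ⋃ x ∈ C, closedBall x 1) ≤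
      volume.real (⋃ x ∈ cen C hC (R + 1), closedBall x 1) := by
    refine measureReal_mono hsub (ne_of_lt ?_)
    refine lt_of_le_of_lt (measure_biUnion_finset_le _ _) ?_
    exact ENNReal.sum_lt_top.2 fun x _ => measure_closedBall_lt_top
  have h2 : volume.real (⋃ x ∈ cen C hC (R + 1), closedBall x 1) ≤
      ∑ x ∈ cen C hC (R + 1), volume.real (closedBall x 1) :=
    measureReal_biUnion_finset_le _ _
  have h3 : ∑ x ∈ cen C hC (R + 1), volume.real (closedBall x 1) =
      (cen C hC (R + 1)).card * (Real.pi * 4 / 3) := by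
    rw [Finset.sum_congr rfl fun x _ => vol_closedBall_real x 1 zero_le_one, Finset.sum_const,
      nsmul_eq_mul]
    ring
  have h4 := h1.trans (h2.trans h3.le)
  rw [measureReal_def] at h4
  have h5 : 0 ≤ R ^ 3 := by positivity
  nlinarith [mul_le_mul_of_nonneg_right h4 h5]

lemma le_covered (C : Set E3) (hC : ∀ x ∈ C, ∀ y ∈ C, x ≠ y → 2 ≤ dist x y) (R : ℝ)
    (hR : 0 < R) : (cen C hC (R - 1)).card / R ^ 3 ≤ covered C R := by
  unfold covered
  rw [vol_ball R hR.le, div_le_div_iff₀ (by positivity) (by positivity)]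
  have hsub : (⋃ x ∈ cen C hC (R - 1), ball x 1) ⊆ ball (0 : E3) R ∩ ⋃ x ∈ C, closedBall x 1 := by
    intro y hy
    obtain ⟨x, hx, hxy⟩ := Set.mem_iUnion₂.1 hy
    rw [mem_cen] at hx
    refine ⟨?_, Set.mem_iUnion₂.2 ⟨x, hx.1, ball_subset_closedBall hxy⟩⟩
    rw [mem_ball, dist_zero_right]
    rw [mem_ball, dist_eq_norm] at hxy
    calc ‖y‖ = ‖(y - x) + x‖ := by rw [sub_add_cancel]
      _ ≤ ‖y - x‖ + ‖x‖ := norm_add_le _ _
      _ < R := by linarith [hx.2]
  have h1 : volume.real (⋃ x ∈ cen C hC (R - 1), ball x 1) ≤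
      volume.real (ball (0 : E3) R ∩ ⋃ x ∈ C, closedBall x 1) := by
    refine measureReal_mono hsub ?_
    exact (lt_of_le_of_lt (measure_mono Set.inter_subset_left) measure_ball_lt_top).ne
  have h2 : volume.real (⋃ x ∈ cen C hC (R - 1), ball x 1) =
      ∑ x ∈ cen C hC (R - 1), volume.real (ball x 1) := by
    refine measureReal_biUnion_finset ?_ ?_ ?_
    · intro a ha b hb hab
      rw [Function.onFun]
      apply ball_disjoint_ball
      have := hC a (mem_cen.1 ha).1 b (mem_cen.1 hb).1 hab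
      linarith
    · intro a _
      exact measurableSet_ball
    · intro a _
      exact measure_ball_lt_top.ne
  have h3 : ∑ x ∈ cen C hC (R - 1), volume.real (ball x 1) =
      (cen C hC (R - 1)).card * (Real.pi * 4 / 3) := by
    rw [Finset.sum_congr rfl fun x _ => vol_ball_real x 1 zero_le_one, Finset.sum_const,
      nsmul_eq_mul]
    ring
  have h4 := (h3.symm.trans h2.symm).le.trans h1
  rw [measureReal_def] at h4
  have h5 : 0 ≤ R ^ 3 := by positivity
  nlinarith [mul_le_mul_of_nonneg_right h4 h5]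

end Pool.Agent.T6.H88.EN
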