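import Mathlib

/-!
# Neighbour packings of unit balls in space (MP_def58e_co): definitions

A packing of closed unit balls of `ℝ³` is given by the set `C` of its centres.
-/

set_option autoImplicit false

namespace Pool.Agent.T6.H88.EN

open MeasureTheory Filter Metric

/-- Euclidean space of dimension three. -/
abbrev E3 := EuclideanSpace ℝ (Fin 3)

/-- `C` is the (nonempty) set of the centres of a `k`-neighbour packing of closed unit balls: the
balls `closedBall x 1`, `x ∈ C`, have pairwise disjoint interiors, and every one of them touches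
at least `k` others. -/
structure IsNeighbourPacking (k : ℕ) (C : Set E3) : Prop where
  nonempty : C.Nonempty
  packing : ∀ x ∈ C, ∀ y ∈ C, x ≠ y → 2 ≤ dist x y
  neighbours : ∀ x ∈ C, (k : ℕ∞) ≤ {y | y ∈ C ∧ dist x y = 2}.encard

/-- The part of the ball of radius `R` about the origin which is covered by the packing. -/
noncomputable def covered (C : Set E3) (R : ℝ) : ℝ :=
  (volume (ball (0 : E3) R ∩ ⋃ x ∈ C, closedBall x 1)).toReal / (volume (ball (0 : E3) R)).toReal

/-- The lower density of the packing with centres `C`. -/
noncomputable def lowerDensity (C : Set E3) : ℝ := liminf (covered C) atTop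

/-- The infimum of the lower densities of the `k`-neighbour packings of unit balls. -/
noncomputable def delta (k : ℕ) : ℝ :=
  sInf {d | ∃ C : Set E3, IsNeighbourPacking k C ∧ d = lowerDensity C}

lemma vol_ball (R : ℝ) (hR : 0 ≤ R) : (volume (ball (0 : E3) R)).toReal = R ^ 3 * (Real.pi * 4 / 3) := by
  rw [EuclideanSpace.volume_ball_fin_three, ENNReal.toReal_mul, ENNReal.toReal_pow,
    ENNReal.toReal_ofReal hR, ENNReal.toReal_ofReal (by positivity)]

lemma covered_nonneg (C : Set E3) (R : ℝ) : 0 ≤ covered C R := by
  unfold covered; positivity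

lemma covered_le_one (C : Set E3) (R : ℝ) : covered C R ≤ 1 := by
  unfold covered
  apply div_le_one_of_le₀ _ ENNReal.toReal_nonneg
  apply ENNReal.toReal_mono measure_ball_lt_top.ne
  exact measure_mono Set.inter_subset_left

lemma bdd_below (C : Set E3) : IsBoundedUnder (· ≥ ·) atTop (covered C) :=
  isBoundedUnder_of ⟨0, fun R => covered_nonneg C R⟩

lemma bdd_above (C : Set E3) : IsBoundedUnder (· ≤ ·) atTop (covered C) :=
  isBoundedUnder_of ⟨1, fun R => covered_le_one C R⟩

lemma lowerDensity_nonneg (C : Set E3) : 0 ≤ lowerDensity C :=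
  le_liminf_of_le (bdd_above C).isCoboundedUnder_ge (Eventually.of_forall fun R => covered_nonneg C R)

/-- If `covered C R ≤ g R` eventually and `g` tends to `c`, the lower density is at most `c`. -/
lemma lowerDensity_le (C : Set E3) (g : ℝ → ℝ) (c : ℝ) (hg : Tendsto g atTop (nhds c))
    (h : ∀ᶠ R in atTop, covered C R ≤ g R) : lowerDensity C ≤ c := by
  rw [← hg.liminf_eq]
  exact liminf_le_liminf h (bdd_below C) hg.isCoboundedUnder_ge

/-- If `g R ≤ covered C R` eventually and `g` tends to `c`, the lower density is at least `c`. -/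
lemma le_lowerDensity (C : Set E3) (g : ℝ → ℝ) (c : ℝ) (hg : Tendsto g atTop (nhds c))
    (h : ∀ᶠ R in atTop, g R ≤ covered C R) : c ≤ lowerDensity C := by
  rw [← hg.liminf_eq]
  exact liminf_le_liminf h hg.isBoundedUnder_ge (bdd_above C).isCoboundedUnder_ge

end Pool.Agent.T6.H88.EN
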