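import Pool.Agent.T6.H88.EN.Count
import Pool.Agent.Helper843.Leg

/-!
# Eleven unit vectors with mutual angles at least 60 degrees leave no large hole (MP_def58e_co)

Delsarte's method with the zonal part kept: if `f = a₀ + ∑ aₖ Pₖ` with `aₖ > 0` is nonpositive on
`[-1, 1/2]` then `∑ᵢⱼ f(xᵢ · xⱼ) ≥ 121 a₀ + ∑ aₖ (∑ᵢ Pₖ(zᵢ))²`, and the last sum is large if all
the heights `zᵢ` are at most `7/30`.
-/

set_option autoImplicit false

namespace Pool.Agent.T6.H88.EN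

open Finset Pool.Agent.Helper843

lemma psdP0 {ι : Type*} [Fintype ι] (K : ℕ) (P : ℝ → ℝ) (a : ℕ → ℝ) (q : ℕ → ℝ → ℝ)
    (ha : ∀ m, 0 ≤ a m)
    (hadd : ∀ (z w ρ D : ℝ) (T : ℕ → ℝ), D = (1 - z ^ 2) * (1 - w ^ 2) → T 0 = 1 → T 1 = ρ →
      (∀ m, T (m + 2) = 2 * ρ * T (m + 1) - D * T m) →
      P (z * w + ρ) = ∑ m ∈ range (K + 1), a m * (q m z * q m w * T m))
    (z : ι → ℝ) (ξ : ι → ℂ) (hξ : ∀ i, Complex.normSq (ξ i) = 1 - z i ^ 2) :
    a 0 * (∑ i, q 0 (z i)) ^ 2 ≤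
      ∑ i, ∑ j, P (z i * z j + (ξ i * (starRingEnd ℂ) (ξ j)).re) := by
  have e : ∀ i j, P (z i * z j + (ξ i * (starRingEnd ℂ) (ξ j)).re) =
      ∑ m ∈ range (K + 1),
        a m * (((q m (z i) : ℂ) * ξ i ^ m) * (starRingEnd ℂ) ((q m (z j) : ℂ) * ξ j ^ m)).re := by
    intro i j
    set ζ : ℂ := ξ i * (starRingEnd ℂ) (ξ j) with hζ
    have hD : Complex.normSq ζ = (1 - z i ^ 2) * (1 - z j ^ 2) := by
      rw [hζ, Complex.normSq_mul, Complex.normSq_conj, hξ, hξ]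
    have hq : ζ ^ 2 = 2 * (ζ.re : ℂ) * ζ - (Complex.normSq ζ : ℂ) := by
      rw [Complex.normSq_eq_conj_mul_self]
      have : (2 : ℂ) * (ζ.re : ℂ) = ζ + (starRingEnd ℂ) ζ := by
        rw [Complex.add_conj]; push_cast; ring
      rw [this]; ring
    rw [hadd (z i) (z j) ζ.re (Complex.normSq ζ) (fun m => (ζ ^ m).re) hD (by simp) (by simp) ?_]
    · refine sum_congr rfl fun m _ => ?_
      congr 1
      have : ((q m (z i) : ℂ) * ξ i ^ m) * (starRingEnd ℂ) ((q m (z j) : ℂ) * ξ j ^ m)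
          = ((q m (z i) * q m (z j) : ℝ) : ℂ) * ζ ^ m := by
        rw [hζ, map_mul, map_pow, Complex.conj_ofReal, mul_pow]
        push_cast; ring
      rw [this, Complex.re_ofReal_mul]
    · intro m
      have : ζ ^ (m + 2) =
          ((2 * ζ.re : ℝ) : ℂ) * ζ ^ (m + 1) - ((Complex.normSq ζ : ℝ) : ℂ) * ζ ^ m := by
        rw [pow_add, hq, pow_succ]; push_cast; ring
      show (ζ ^ (m + 2)).re = _
      rw [this, Complex.sub_re, Complex.re_ofReal_mul, Complex.re_ofReal_mul]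
  simp_rw [e]
  have h1 : ∑ i, ∑ j, ∑ m ∈ range (K + 1),
        a m * (((q m (z i) : ℂ) * ξ i ^ m) * (starRingEnd ℂ) ((q m (z j) : ℂ) * ξ j ^ m)).re
      = ∑ m ∈ range (K + 1), a m * ∑ i, ∑ j,
        (((q m (z i) : ℂ) * ξ i ^ m) * (starRingEnd ℂ) ((q m (z j) : ℂ) * ξ j ^ m)).re := by
    simp_rw [mul_sum]
    calc _ = ∑ i, ∑ m ∈ range (K + 1), ∑ j,
          a m * (((q m (z i) : ℂ) * ξ i ^ m) * (starRingEnd ℂ) ((q m (z j) : ℂ) * ξ j ^ m)).re :=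
          sum_congr rfl fun i _ => sum_comm
      _ = _ := sum_comm
  rw [h1, sum_range_succ']
  have h2 : 0 ≤ ∑ m ∈ range K, a (m + 1) * ∑ i, ∑ j,
      (((q (m + 1) (z i) : ℂ) * ξ i ^ (m + 1)) *
        (starRingEnd ℂ) ((q (m + 1) (z j) : ℂ) * ξ j ^ (m + 1))).re :=
    sum_nonneg fun m _ => mul_nonneg (ha _) (Leg.psd _)
  have h3 : ∑ i, ∑ j, (((q 0 (z i) : ℂ) * ξ i ^ 0) *
      (starRingEnd ℂ) ((q 0 (z j) : ℂ) * ξ j ^ 0)).re = (∑ i, q 0 (z i)) ^ 2 := by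
    rw [sq, sum_mul_sum]
    refine sum_congr rfl fun i _ => sum_congr rfl fun j _ => ?_
    simp
  rw [h3]
  linarith

/-- the Delsarte polynomial -/
noncomputable def f (t : ℝ) : ℝ := (t - 1 / 2) * (t + 9 / 10) ^ 2 * (t + 1 / 3) ^ 2

/-- the certificate for the zonal part -/
noncomputable def H (z : ℝ) : ℝ := (z + 1) * (z + 4 / 7) ^ 2 * (7 / 30 - z) * (1 - 4 / 7 * z)

lemma H_expand (z : ℝ) : H z = -11927 / 51450 - 30647 / 51450 * Leg.P1 z - 3089 / 5145 * Leg.P2 z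
    - 22247 / 77175 * Leg.P3 z + 536 / 25725 * Leg.P4 z + 32 / 441 * Leg.P5 z := by
  unfold H Leg.P1 Leg.P2 Leg.P3 Leg.P4 Leg.P5
  ring

lemma f_expand (t : ℝ) : f t = 163 / 675 + 7153 / 10500 * Leg.P1 t + 17201 / 18900 * Leg.P2 t
    + 1799 / 2250 * Leg.P3 t + 236 / 525 * Leg.P4 t + 8 / 63 * Leg.P5 t := by
  unfold f Leg.P1 Leg.P2 Leg.P3 Leg.P4 Leg.P5
  ring

/-- Among eleven unit vectors with mutual angles at least 60 degrees one has height above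
`7/30`. -/
theorem hole_z {ι : Type*} [Fintype ι] (hc : Fintype.card ι = 11) (x : ι → E3)
    (hx : ∀ i, ‖x i‖ = 1) (hij : ∀ i j, i ≠ j → inner ℝ (x i) (x j) ≤ 1 / 2) :
    ∃ i, 7 / 30 < x i 2 := by
  classical
  by_contra hcon
  push Not at hcon
  set z : ι → ℝ := fun i => x i 2 with hz
  set ξ : ι → ℂ := fun i => ⟨x i 0, x i 1⟩ with hξ
  have hn : ∀ i, Complex.normSq (ξ i) = 1 - z i ^ 2 := by
    intro i
    have h1 : ‖x i‖ ^ 2 = 1 := by rw [hx i]; norm_num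
    rw [EuclideanSpace.norm_sq_eq, Fin.sum_univ_three] at h1
    simp only [Real.norm_eq_abs, sq_abs] at h1
    simp only [hξ, hz, Complex.normSq_mk]
    linarith
  have hin : ∀ i j, inner ℝ (x i) (x j) = z i * z j + (ξ i * (starRingEnd ℂ) (ξ j)).re := by
    intro i j
    simp only [PiLp.inner_apply, Fin.sum_univ_three, hz, hξ, Complex.mul_re, Complex.conj_re,
      Complex.conj_im]
    simp
    ring
  have hz1 : ∀ i, -1 ≤ z i := by
    intro i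
    have h1 := hn i
    have h2 := Complex.normSq_nonneg (ξ i)
    nlinarith
  have p1 := psdP0 1 Leg.P1 Leg.a1 Leg.q1 Leg.a1_nonneg Leg.add1 z ξ hn
  have p2 := psdP0 2 Leg.P2 Leg.a2 Leg.q2 Leg.a2_nonneg Leg.add2 z ξ hn
  have p3 := psdP0 3 Leg.P3 Leg.a3 Leg.q3 Leg.a3_nonneg Leg.add3 z ξ hn
  have p4 := psdP0 4 Leg.P4 Leg.a4 Leg.q4 Leg.a4_nonneg Leg.add4 z ξ hn
  have p5 := psdP0 5 Leg.P5 Leg.a5 Leg.q5 Leg.a5_nonneg Leg.add5 z ξ hn
  simp_rw [← hin] at p1 p2 p3 p4 p5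
  have e1 : ∀ i, Leg.q1 0 (z i) = 1 * Leg.P1 (z i) := fun i => by
    simp only [Leg.q1, Leg.P1]; ring
  have e2 : ∀ i, Leg.q2 0 (z i) = 2 * Leg.P2 (z i) := fun i => by
    simp only [Leg.q2, Leg.P2]; ring
  have e3 : ∀ i, Leg.q3 0 (z i) = 2 * Leg.P3 (z i) := fun i => by
    simp only [Leg.q3, Leg.P3]; ring
  have e4 : ∀ i, Leg.q4 0 (z i) = 8 * Leg.P4 (z i) := fun i => by
    simp only [Leg.q4, Leg.P4]; ring
  have e5 : ∀ i, Leg.q5 0 (z i) = 8 * Leg.P5 (z i) := fun i => by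
    simp only [Leg.q5, Leg.P5]; ring
  simp_rw [e1, ← mul_sum] at p1
  simp_rw [e2, ← mul_sum] at p2
  simp_rw [e3, ← mul_sum] at p3
  simp_rw [e4, ← mul_sum] at p4
  simp_rw [e5, ← mul_sum] at p5
  simp only [Leg.a1] at p1
  simp only [Leg.a2] at p2
  simp only [Leg.a3] at p3
  simp only [Leg.a4] at p4
  simp only [Leg.a5] at p5
  have hf : ∀ i, ∑ j, f (inner ℝ (x i) (x j)) ≤ 722 / 225 := by
    intro i
    have h1 : ∀ j, f (inner ℝ (x i) (x j)) ≤ if j = i then 722 / 225 else 0 := by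
      intro j
      by_cases hji : j = i
      · subst hji
        rw [if_pos rfl, real_inner_self_eq_norm_sq, hx j]
        unfold f; norm_num
      · rw [if_neg hji]
        have h2 := hij i j (Ne.symm hji)
        unfold f
        have h3 : inner ℝ (x i) (x j) - 1 / 2 ≤ 0 := by linarith
        exact mul_nonpos_of_nonpos_of_nonneg (mul_nonpos_of_nonpos_of_nonneg h3 (sq_nonneg _))
          (sq_nonneg _)
    refine (sum_le_sum fun j _ => h1 j).trans (le_of_eq ?_)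
    simp
  have U : ∑ i, ∑ j, f (inner ℝ (x i) (x j)) ≤ 11 * (722 / 225) := by
    refine (sum_le_sum fun i _ => hf i).trans (le_of_eq ?_)
    rw [sum_const, card_univ, hc, nsmul_eq_mul]
    norm_num
  have L : ∑ i, ∑ j, f (inner ℝ (x i) (x j)) = 121 * (163 / 675)
      + 7153 / 10500 * ∑ i, ∑ j, Leg.P1 (inner ℝ (x i) (x j))
      + 17201 / 18900 * ∑ i, ∑ j, Leg.P2 (inner ℝ (x i) (x j))
      + 1799 / 2250 * ∑ i, ∑ j, Leg.P3 (inner ℝ (x i) (x j))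
      + 236 / 525 * ∑ i, ∑ j, Leg.P4 (inner ℝ (x i) (x j))
      + 8 / 63 * ∑ i, ∑ j, Leg.P5 (inner ℝ (x i) (x j)) := by
    simp_rw [f_expand, sum_add_distrib, ← mul_sum]
    have h0 : ∑ _i : ι, ∑ _j : ι, (163 / 675 : ℝ) = 121 * (163 / 675) := by
      simp only [sum_const, card_univ, nsmul_eq_mul, hc]
      norm_num
    rw [h0]
  have HS : 0 ≤ ∑ i, H (z i) := by
    refine sum_nonneg fun i _ => ?_
    have h1 := hz1 i
    have h2 : z i ≤ 7 / 30 := hcon i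
    unfold H
    have h3 : 0 ≤ z i + 1 := by linarith
    have h4 : 0 ≤ 7 / 30 - z i := by linarith
    have h5 : 0 ≤ 1 - 4 / 7 * z i := by linarith
    positivity
  have HL : ∑ i, H (z i) = 11 * (-11927 / 51450) - 30647 / 51450 * ∑ i, Leg.P1 (z i)
      - 3089 / 5145 * ∑ i, Leg.P2 (z i) - 22247 / 77175 * ∑ i, Leg.P3 (z i)
      + 536 / 25725 * ∑ i, Leg.P4 (z i) + 32 / 441 * ∑ i, Leg.P5 (z i) := by
    simp_rw [H_expand, sum_add_distrib, sum_sub_distrib, ← mul_sum]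
    have h0 : ∑ _i : ι, (-11927 / 51450 : ℝ) = 11 * (-11927 / 51450) := by
      simp only [sum_const, card_univ, nsmul_eq_mul, hc]
      norm_num
    rw [h0]
  generalize (∑ i, Leg.P1 (z i)) = S1 at p1 HL
  generalize (∑ i, Leg.P2 (z i)) = S2 at p2 HL
  generalize (∑ i, Leg.P3 (z i)) = S3 at p3 HL
  generalize (∑ i, Leg.P4 (z i)) = S4 at p4 HL
  generalize (∑ i, Leg.P5 (z i)) = S5 at p5 HL
  have s1 := sq_nonneg (S1 - (-735528 / 350497))
  have s2 := sq_nonneg (S2 - (-1334448 / 842849))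
  have s3 := sq_nonneg (S3 - (-533928 / 617057))
  have s4 := sq_nonneg (S4 - (1608 / 14455))
  have s5 := sq_nonneg (S5 - (48 / 35))
  nlinarith [s1, s2, s3, s4, s5, p1, p2, p3, p4, p5, U, L, HS, HL]

end Pool.Agent.T6.H88.EN
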