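import Pool.Agent.T6.H88.EN.Count

/-!
# The face-centred cubic packing without a perfect code (MP_def58e_co)

The centres are the points `√2 v`, `v` an integer vector with even sum of coordinates and
`v₁ + 3 v₂ + 4 v₃` not divisible by `13`.
-/

set_option autoImplicit false

namespace Pool.Agent.T6.H88.EN

open MeasureTheory Filter Metric

/-- the point `√2 v` -/
noncomputable def pt (v : ℤ × ℤ × ℤ) : E3 :=
  !₂[√2 * (v.1 : ℝ), √2 * (v.2.1 : ℝ), √2 * (v.2.2 : ℝ)]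

/-- integer vectors with even coordinate sum outside the perfect code -/
def good (v : ℤ × ℤ × ℤ) : Prop :=
  (v.1 + v.2.1 + v.2.2) % 2 = 0 ∧ (v.1 + 3 * v.2.1 + 4 * v.2.2) % 13 ≠ 0

/-- the centres of the packing -/
def P : Set E3 := {x | ∃ v, good v ∧ x = pt v}

lemma two : (√2 : ℝ) ^ 2 = 2 := Real.sq_sqrt (by norm_num)

lemma two_pos : (0 : ℝ) < √2 := Real.sqrt_pos.2 (by norm_num)

@[simp] lemma pt0 (v : ℤ × ℤ × ℤ) : pt v 0 = √2 * (v.1 : ℝ) := by simp [pt]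
@[simp] lemma pt1 (v : ℤ × ℤ × ℤ) : pt v 1 = √2 * (v.2.1 : ℝ) := by simp [pt]
@[simp] lemma pt2 (v : ℤ × ℤ × ℤ) : pt v 2 = √2 * (v.2.2 : ℝ) := by simp [pt]

lemma dist_sq (x y : E3) : dist x y ^ 2 = (x 0 - y 0) ^ 2 + (x 1 - y 1) ^ 2 + (x 2 - y 2) ^ 2 := by
  rw [EuclideanSpace.dist_eq, Real.sq_sqrt (by positivity), Fin.sum_univ_three]
  simp only [Real.dist_eq, sq_abs]

lemma dist_pt (v w : ℤ × ℤ × ℤ) : dist (pt v) (pt w) ^ 2 =
    2 * (((v.1 - w.1) ^ 2 + (v.2.1 - w.2.1) ^ 2 + (v.2.2 - w.2.2) ^ 2 : ℤ) : ℝ) := by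
  rw [dist_sq]
  simp only [pt0, pt1, pt2]
  push_cast
  linear_combination (((v.1 : ℝ) - w.1) ^ 2 + ((v.2.1 : ℝ) - w.2.1) ^ 2
    + ((v.2.2 : ℝ) - w.2.2) ^ 2) * two

lemma pt_inj : Function.Injective pt := by
  intro v w h
  have h0 := congrFun (congrArg (fun x : E3 => (x : Fin 3 → ℝ)) h) 0
  have h1 := congrFun (congrArg (fun x : E3 => (x : Fin 3 → ℝ)) h) 1
  have h2 := congrFun (congrArg (fun x : E3 => (x : Fin 3 → ℝ)) h) 2
  simp only [pt0, pt1, pt2] at h0 h1 h2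
  have e0 : (v.1 : ℝ) = w.1 := mul_left_cancel₀ two_pos.ne' h0
  have e1 : (v.2.1 : ℝ) = w.2.1 := mul_left_cancel₀ two_pos.ne' h1
  have e2 : (v.2.2 : ℝ) = w.2.2 := mul_left_cancel₀ two_pos.ne' h2
  exact Prod.ext (by exact_mod_cast e0) (Prod.ext (by exact_mod_cast e1) (by exact_mod_cast e2))

lemma norm_even (a b c : ℤ) (h : (a + b + c) % 2 = 0) (h0 : ¬ (a = 0 ∧ b = 0 ∧ c = 0)) :
    2 ≤ a ^ 2 + b ^ 2 + c ^ 2 := by
  have h1 : (a ^ 2 + b ^ 2 + c ^ 2) % 2 = 0 := by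
    have e : a ^ 2 + b ^ 2 + c ^ 2 = (a + b + c) * (a + b + c) - 2 * (a * b + a * c + b * c) := by
      ring
    rw [e]
    obtain ⟨k, hk⟩ : ∃ k, a + b + c = 2 * k := ⟨(a + b + c) / 2, by omega⟩
    rw [hk]
    have : 2 * k * (2 * k) - 2 * (a * b + a * c + b * c) =
        2 * (2 * k * k - (a * b + a * c + b * c)) := by ring
    omega
  have h2 : 0 < a ^ 2 + b ^ 2 + c ^ 2 := by
    by_contra hn
    push Not at hn
    have ha : a ^ 2 = 0 := by nlinarith [sq_nonneg a, sq_nonneg b, sq_nonneg c]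
    have hb : b ^ 2 = 0 := by nlinarith [sq_nonneg a, sq_nonneg b, sq_nonneg c]
    have hc : c ^ 2 = 0 := by nlinarith [sq_nonneg a, sq_nonneg b, sq_nonneg c]
    exact h0 ⟨by simpa using ha, by simpa using hb, by simpa using hc⟩
  omega

lemma P_packing : ∀ x ∈ P, ∀ y ∈ P, x ≠ y → 2 ≤ dist x y := by
  rintro x ⟨v, hv, rfl⟩ y ⟨w, hw, rfl⟩ hxy
  have h1 : 2 ≤ (v.1 - w.1) ^ 2 + (v.2.1 - w.2.1) ^ 2 + (v.2.2 - w.2.2) ^ 2 := by
    apply norm_even
    · have := hv.1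
      have := hw.1
      omega
    · rintro ⟨a, b, c⟩
      apply hxy
      congr 1
      exact Prod.ext (by omega) (Prod.ext (by omega) (by omega))
  have h2 := dist_pt v w
  have h3 : (2 : ℝ) ≤ (((v.1 - w.1) ^ 2 + (v.2.1 - w.2.1) ^ 2 + (v.2.2 - w.2.2) ^ 2 : ℤ) : ℝ) := by
    exact_mod_cast h1
  by_contra hn
  push Not at hn
  nlinarith [dist_nonneg (x := pt v) (y := pt w)]

/-- the twelve minimal vectors -/
def roots : Finset (ℤ × ℤ × ℤ) :=
  {(1, 1, 0), (-1, -1, 0), (1, -1, 0), (-1, 1, 0), (1, 0, 1), (-1, 0, -1), (1, 0, -1), (-1, 0, 1),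
    (0, 1, 1), (0, -1, -1), (0, 1, -1), (0, -1, 1)}

lemma roots_norm : ∀ w ∈ roots, w.1 ^ 2 + w.2.1 ^ 2 + w.2.2 ^ 2 = 2 ∧
    (w.1 + w.2.1 + w.2.2) % 2 = 0 := by
  decide

lemma roots_card : ∀ r ∈ Finset.Ico (1 : ℤ) 13,
    (roots.filter fun w => (r + (w.1 + 3 * w.2.1 + 4 * w.2.2)) % 13 ≠ 0).card = 11 := by
  decide +kernel

lemma P_neighbours : ∀ x ∈ P, ((11 : ℕ) : ℕ∞) ≤ {y | y ∈ P ∧ dist x y = 2}.encard := by
  classical
  rintro x ⟨v, hv, rfl⟩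
  set r := (v.1 + 3 * v.2.1 + 4 * v.2.2) % 13 with hr
  have hr1 : r ∈ Finset.Ico (1 : ℤ) 13 := by
    rw [Finset.mem_Ico]
    have := hv.2
    omega
  have hc := roots_card r hr1
  set S := roots.filter fun w => (r + (w.1 + 3 * w.2.1 + 4 * w.2.2)) % 13 ≠ 0 with hS
  have hinj : Function.Injective fun w : ℤ × ℤ × ℤ => pt (v + w) := by
    intro a b hab
    exact add_left_cancel (pt_inj hab)
  have h1 : (S.image fun w => pt (v + w)).card = 11 := by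
    rw [Finset.card_image_of_injective _ hinj, hc]
  have h2 : ((S.image fun w => pt (v + w) : Finset E3) : Set E3) ⊆
      {y | y ∈ P ∧ dist (pt v) y = 2} := by
    intro y hy
    rw [Finset.mem_coe, Finset.mem_image] at hy
    obtain ⟨w, hw, rfl⟩ := hy
    rw [hS, Finset.mem_filter] at hw
    obtain ⟨n1, n2⟩ := roots_norm w hw.1
    refine ⟨⟨v + w, ⟨?_, ?_⟩, rfl⟩, ?_⟩
    · have := hv.1
      simp only [Prod.fst_add, Prod.snd_add]
      omega
    · have := hw.2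
      simp only [Prod.fst_add, Prod.snd_add]
      omega
    · have h3 := dist_pt v (v + w)
      have h4 : (v.1 - (v + w).1) ^ 2 + (v.2.1 - (v + w).2.1) ^ 2 + (v.2.2 - (v + w).2.2) ^ 2 =
          w.1 ^ 2 + w.2.1 ^ 2 + w.2.2 ^ 2 := by
        simp only [Prod.fst_add, Prod.snd_add]
        ring
      rw [h4, n1] at h3
      push_cast at h3
      have h5 : dist (pt v) (pt (v + w)) ^ 2 = 2 ^ 2 := by rw [h3]; norm_num
      exact (pow_left_inj₀ dist_nonneg (by norm_num) two_ne_zero).1 h5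
  calc ((11 : ℕ) : ℕ∞) = ((S.image fun w => pt (v + w) : Finset E3) : Set E3).encard := by
        rw [Set.encard_coe_eq_coe_finsetCard, h1]
    _ ≤ _ := Set.encard_le_encard h2

lemma P_isPacking : IsNeighbourPacking 11 P :=
  ⟨⟨pt (1, 1, 0), (1, 1, 0), ⟨by decide, by decide⟩, rfl⟩, P_packing, P_neighbours⟩

/-! ## Counting -/

/-- the box with index `b` -/
def Bx (b : ℤ × ℤ × ℤ) : Set E3 := (@WithLp.ofLp 2 (Fin 3 → ℝ)) ⁻¹'
  (Set.pi Set.univ fun i => Set.Ico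
    ((![√2 * (b.1 : ℝ), √2 * (b.2.1 : ℝ), 26 * √2 * (b.2.2 : ℝ)] : Fin 3 → ℝ) i)
    ((![√2 * (b.1 : ℝ) + √2, √2 * (b.2.1 : ℝ) + √2, 26 * √2 * (b.2.2 : ℝ) + 26 * √2] :
      Fin 3 → ℝ) i))

lemma mem_Bx (b : ℤ × ℤ × ℤ) (x : E3) : x ∈ Bx b ↔
    (√2 * (b.1 : ℝ) ≤ x 0 ∧ x 0 < √2 * (b.1 : ℝ) + √2) ∧
    (√2 * (b.2.1 : ℝ) ≤ x 1 ∧ x 1 < √2 * (b.2.1 : ℝ) + √2) ∧
    (26 * √2 * (b.2.2 : ℝ) ≤ x 2 ∧ x 2 < 26 * √2 * (b.2.2 : ℝ) + 26 * √2) := by
  simp [Bx, Set.mem_pi, Fin.forall_fin_succ]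

lemma meas_Bx (b : ℤ × ℤ × ℤ) : MeasurableSet (Bx b) :=
  (PiLp.volume_preserving_ofLp (Fin 3)).measurable (MeasurableSet.univ_pi fun _ => measurableSet_Ico)

lemma vol_Bx (b : ℤ × ℤ × ℤ) : volume.real (Bx b) = 52 * √2 := by
  rw [measureReal_def, Bx, (PiLp.volume_preserving_ofLp (Fin 3)).measure_preimage
    (MeasurableSet.univ_pi fun _ => measurableSet_Ico).nullMeasurableSet, Real.volume_pi_Ico,
    ENNReal.toReal_prod, Fin.prod_univ_three]
  have h : (0 : ℝ) ≤ √2 := two_pos.le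
  simp only [Matrix.cons_val_zero, Matrix.cons_val_one, Matrix.cons_val, add_sub_cancel_left]
  rw [ENNReal.toReal_ofReal h, ENNReal.toReal_ofReal (by positivity)]
  linear_combination 26 * √2 * two

lemma int_eq {a b : ℤ} {t : ℝ} (h1 : √2 * (a : ℝ) ≤ t) (h2 : t < √2 * (a : ℝ) + √2)
    (h3 : √2 * (b : ℝ) ≤ t) (h4 : t < √2 * (b : ℝ) + √2) : a = b := by
  have p := two_pos
  have e1 : (a : ℝ) < b + 1 := by nlinarith
  have e2 : (b : ℝ) < a + 1 := by nlinarith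
  have e3 : a < b + 1 := by exact_mod_cast e1
  have e4 : b < a + 1 := by exact_mod_cast e2
  omega

lemma disj_Bx {b c : ℤ × ℤ × ℤ} (h : b ≠ c) : Disjoint (Bx b) (Bx c) := by
  rw [Set.disjoint_left]
  intro x hb hc
  rw [mem_Bx] at hb hc
  apply h
  refine Prod.ext (int_eq hb.1.1 hb.1.2 hc.1.1 hc.1.2)
    (Prod.ext (int_eq hb.2.1.1 hb.2.1.2 hc.2.1.1 hc.2.1.2) ?_)
  refine int_eq (t := x 2 / 26) ?_ ?_ ?_ ?_ <;>
    [have := hb.2.2.1; have := hb.2.2.2; have := hc.2.2.1; have := hc.2.2.2] <;> linarith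

/-- the index of the box of a centre -/
noncomputable def g (x : E3) : ℤ × ℤ × ℤ := (⌊x 0 / √2⌋, ⌊x 1 / √2⌋, ⌊x 2 / √2⌋ / 26)

lemma g_pt (v : ℤ × ℤ × ℤ) : g (pt v) = (v.1, v.2.1, v.2.2 / 26) := by
  have p := two_pos.ne'
  simp only [g, pt0, pt1, pt2, mul_div_cancel_left₀ _ p, Int.floor_intCast]

lemma pt_mem_Bx (v : ℤ × ℤ × ℤ) : pt v ∈ Bx (g (pt v)) := by
  rw [g_pt, mem_Bx]
  have p := two_pos
  simp only [pt0, pt1, pt2]
  refine ⟨⟨le_rfl, by linarith⟩, ⟨le_rfl, by linarith⟩, ?_⟩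
  have h1 : 26 * (v.2.2 / 26) ≤ v.2.2 := by omega
  have h2 : v.2.2 < 26 * (v.2.2 / 26) + 26 := by omega
  have h3 : 26 * ((v.2.2 / 26 : ℤ) : ℝ) ≤ v.2.2 := by exact_mod_cast h1
  have h4 : (v.2.2 : ℝ) < 26 * ((v.2.2 / 26 : ℤ) : ℝ) + 26 := by exact_mod_cast h2
  constructor <;> nlinarith

lemma T_card : ∀ a ∈ Finset.Ico (0 : ℤ) 2, ∀ c ∈ Finset.Ico (0 : ℤ) 13,
    ((Finset.Ico (0 : ℤ) 26).filter fun t => (a + t) % 2 = 0 ∧ (c + 4 * t) % 13 ≠ 0).card ≤ 12 := by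
  decide +kernel

lemma fiber_card (F : Finset E3) (hF : ∀ x ∈ F, x ∈ P) (b : ℤ × ℤ × ℤ) :
    (F.filter fun x => g x = b).card ≤ 12 := by
  classical
  refine le_trans ?_ (T_card ((b.1 + b.2.1) % 2) (by rw [Finset.mem_Ico]; omega)
    ((b.1 + 3 * b.2.1) % 13) (by rw [Finset.mem_Ico]; omega))
  refine Finset.card_le_card_of_injOn (fun x => ⌊x 2 / √2⌋ - 26 * b.2.2) ?_ ?_
  · intro x hx
    rw [Finset.mem_coe, Finset.mem_filter] at hx
    obtain ⟨v, hv, rfl⟩ := hF x hx.1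
    have hb := hx.2
    rw [g_pt] at hb
    have e : (⌊(pt v) 2 / √2⌋ : ℤ) = v.2.2 := by
      rw [pt2, mul_div_cancel_left₀ _ two_pos.ne', Int.floor_intCast]
    simp only [e]
    rw [Finset.mem_coe, Finset.mem_filter, Finset.mem_Ico]
    have h1 := hv.1
    have h2 := hv.2
    subst hb
    dsimp only
    refine ⟨⟨by omega, by omega⟩, by omega, by omega⟩
  · intro x hx y hy hxy
    rw [Finset.mem_coe, Finset.mem_filter] at hx hy
    obtain ⟨v, hv, rfl⟩ := hF x hx.1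
    obtain ⟨w, hw, rfl⟩ := hF y hy.1
    have hb := hx.2
    have hc := hy.2
    rw [g_pt] at hb hc
    simp only [pt2, mul_div_cancel_left₀ _ two_pos.ne', Int.floor_intCast] at hxy
    congr 1
    subst hb
    have h1 := congrArg Prod.fst hc
    have h2 := congrArg (fun z : ℤ × ℤ × ℤ => z.2.1) hc
    dsimp only at h1 h2
    exact Prod.ext h1.symm (Prod.ext h2.symm (by omega))

lemma count_P (r : ℝ) (hr : 0 ≤ r) :
    ((cen P P_packing r).card : ℝ) ≤ 4 * Real.pi / (13 * √2) * (r + 40) ^ 3 := by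
  classical
  set F := cen P P_packing r with hFd
  have hF : ∀ x ∈ F, x ∈ P := fun x hx => (mem_cen.1 hx).1
  have h1 : F.card ≤ 12 * (F.image g).card :=
    Finset.card_le_mul_card_image F 12 fun b _ => fiber_card F hF b
  have h2 : ∑ b ∈ F.image g, volume.real (Bx b) = volume.real (⋃ b ∈ F.image g, Bx b) := by
    refine (measureReal_biUnion_finset ?_ ?_ ?_).symm
    · intro a _ b _ hab
      exact disj_Bx hab
    · intro a _
      exact meas_Bx a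
    · intro a _ htop
      have := vol_Bx a
      rw [measureReal_def, htop, ENNReal.toReal_top] at this
      have p := two_pos
      linarith
  have h3 : volume.real (⋃ b ∈ F.image g, Bx b) ≤ volume.real (ball (0 : E3) (r + 40)) := by
    refine measureReal_mono ?_ measure_ball_lt_top.ne
    intro y hy
    obtain ⟨b, hb, hyb⟩ := Set.mem_iUnion₂.1 hy
    obtain ⟨x, hx, rfl⟩ := Finset.mem_image.1 hb
    have hxr : ‖x‖ ≤ r := (mem_cen.1 hx).2
    obtain ⟨v, hv, rfl⟩ := hF x hx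
    have hxb := pt_mem_Bx v
    rw [mem_Bx] at hyb hxb
    have hd : dist y (pt v) < 40 := by
      have h := dist_sq y (pt v)
      have p := two_pos
      have q := two
      have a0 : (y 0 - pt v 0) ^ 2 ≤ √2 ^ 2 :=
        sq_le_sq' (by linarith [hyb.1.1, hxb.1.2]) (by linarith [hyb.1.2, hxb.1.1])
      have a1 : (y 1 - pt v 1) ^ 2 ≤ √2 ^ 2 :=
        sq_le_sq' (by linarith [hyb.2.1.1, hxb.2.1.2]) (by linarith [hyb.2.1.2, hxb.2.1.1])
      have a2 : (y 2 - pt v 2) ^ 2 ≤ (26 * √2) ^ 2 :=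
        sq_le_sq' (by linarith [hyb.2.2.1, hxb.2.2.2]) (by linarith [hyb.2.2.2, hxb.2.2.1])
      by_contra hn
      push Not at hn
      nlinarith
    rw [mem_ball, dist_zero_right]
    calc ‖y‖ = ‖(y - pt v) + pt v‖ := by rw [sub_add_cancel]
      _ ≤ ‖y - pt v‖ + ‖pt v‖ := norm_add_le _ _
      _ < r + 40 := by rw [dist_eq_norm] at hd; linarith
  rw [Finset.sum_congr rfl fun b _ => vol_Bx b, Finset.sum_const, nsmul_eq_mul] at h2
  rw [← h2, vol_ball_real _ _ (by linarith)] at h3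
  have h4 : (F.card : ℝ) ≤ 12 * ((F.image g).card : ℝ) := by exact_mod_cast h1
  have p := two_pos
  have h5 : 12 * ((F.image g).card : ℝ) ≤ 4 * Real.pi / (13 * √2) * (r + 40) ^ 3 := by
    rw [div_mul_eq_mul_div, le_div_iff₀ (by positivity)]
    nlinarith
  exact h4.trans h5

lemma lim_aux (c a : ℝ) : Tendsto (fun R : ℝ => c * (1 + a / R) ^ 3) atTop (nhds c) := by
  have h := ((tendsto_const_nhds (x := (1 : ℝ))).add
    ((tendsto_const_nhds (x := a)).div_atTop (tendsto_id (α := ℝ) (x := atTop)))).pow 3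
    |>.const_mul c
  simpa using h

lemma sqrt18 : √18 = 3 * √2 := by
  rw [show (18 : ℝ) = 3 ^ 2 * 2 by norm_num, Real.sqrt_mul (by norm_num), Real.sqrt_sq (by norm_num)]

theorem P_density : lowerDensity P ≤ 12 / 13 * (Real.pi / √18) := by
  have hc : 12 / 13 * (Real.pi / √18) = 4 * Real.pi / (13 * √2) := by
    rw [sqrt18]
    have := two_pos.ne'
    field_simp
    norm_num
  rw [hc]
  refine lowerDensity_le P _ _ (lim_aux _ 41) ?_
  filter_upwards [eventually_gt_atTop 0] with R hR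
  refine (covered_le P P_packing R hR).trans ?_
  have h := count_P (R + 1) (by linarith)
  rw [div_le_iff₀ (by positivity)]
  refine h.trans (le_of_eq ?_)
  have : R ≠ 0 := hR.ne'
  rw [mul_assoc, ← mul_pow]
  congr 2
  field_simp
  ring

end Pool.Agent.T6.H88.EN
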