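import Pool.Agent.T6.H88.EN.Hole
import Pool.Agent.T6.H88.EN.Upper

/-!
# An explicit lower bound for the density of eleven-neighbour packings (MP_def58e_co)
-/

set_option autoImplicit false

namespace Pool.Agent.T6.H88.EN

open MeasureTheory Filter Metric

/-- Eleven unit vectors with mutual angles at least 60 degrees: every unit vector has inner
product larger than `7/30` with one of them. -/
theorem hole {ι : Type*} [Fintype ι] (hc : Fintype.card ι = 11) (x : ι → E3)
    (hx : ∀ i, ‖x i‖ = 1) (hij : ∀ i j, i ≠ j → inner ℝ (x i) (x j) ≤ 1 / 2) (u : E3)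
    (hu : ‖u‖ = 1) : ∃ i, 7 / 30 < inner ℝ u (x i) := by
  set e : E3 := EuclideanSpace.single 2 (1 : ℝ) with he
  have hen : ‖e‖ = 1 := by simp [he]
  have hR := Submodule.reflection_sub (v := u) (w := e) (by rw [hu, hen])
  set R := (Submodule.span ℝ {u - e})ᗮ.reflection
  obtain ⟨i, hi⟩ := hole_z hc (fun i => R (x i)) (fun i => by rw [LinearIsometryEquiv.norm_map, hx])
    (fun i j h => by rw [LinearIsometryEquiv.inner_map_map]; exact hij i j h)
  refine ⟨i, ?_⟩
  have h1 : inner ℝ u (x i) = (R (x i)) 2 := by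
    rw [← LinearIsometryEquiv.inner_map_map R u (x i), hR, he, EuclideanSpace.inner_single_left]
    simp
  rw [h1]
  exact hi

lemma exists_nearest {C : Set E3} (h : IsNeighbourPacking 11 C) (c : E3) :
    ∃ p ∈ C, ∀ y ∈ C, dist p c ≤ dist y c := by
  obtain ⟨p0, hp0⟩ := h.nonempty
  have tri : ∀ y : E3, ‖y‖ ≤ dist y c + ‖c‖ := fun y => by
    calc ‖y‖ = ‖(y - c) + c‖ := by rw [sub_add_cancel]
      _ ≤ ‖y - c‖ + ‖c‖ := norm_add_le _ _
      _ = dist y c + ‖c‖ := by rw [dist_eq_norm]
  have hm : p0 ∈ cen C h.packing (‖c‖ + dist p0 c) := mem_cen.2 ⟨hp0, by linarith [tri p0]⟩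
  obtain ⟨p, hp, hmin⟩ := Finset.exists_min_image (cen C h.packing (‖c‖ + dist p0 c))
    (fun y => dist y c) ⟨p0, hm⟩
  refine ⟨p, (mem_cen.1 hp).1, fun y hy => ?_⟩
  by_cases hy2 : y ∈ cen C h.packing (‖c‖ + dist p0 c)
  · exact hmin y hy2
  · have h1 : ‖c‖ + dist p0 c < ‖y‖ := by
      by_contra hn
      exact hy2 (mem_cen.2 ⟨hy, not_lt.1 hn⟩)
    have h2 := hmin p0 hm
    linarith [tri y]

/-- eleven neighbours of a centre -/
lemma exists_eleven {C : Set E3} (h : IsNeighbourPacking 11 C) {p : E3} (hp : p ∈ C) :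
    ∃ F : Finset E3, F.card = 11 ∧ ∀ y ∈ F, y ∈ C ∧ dist p y = 2 := by
  obtain ⟨t, ht, htc⟩ := Set.exists_subset_encard_eq (h.neighbours p hp)
  have hfin : t.Finite := Set.finite_of_encard_eq_coe htc
  refine ⟨hfin.toFinset, ?_, fun y hy => ht (hfin.mem_toFinset.1 hy)⟩
  rw [hfin.encard_eq_coe_toFinset_card] at htc
  exact_mod_cast htc

lemma nearest_le {C : Set E3} (h : IsNeighbourPacking 11 C) {p : E3} (hp : p ∈ C) (c : E3)
    (hmin : ∀ y ∈ C, dist p c ≤ dist y c) : dist p c ≤ 30 / 7 := by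
  by_contra hn
  push Not at hn
  obtain ⟨F, hF, hFC⟩ := exists_eleven h hp
  set d := dist p c with hd
  have hd0 : 0 < d := by linarith
  have hcp : ‖c - p‖ = d := by rw [hd, dist_comm, dist_eq_norm]
  have hu : ‖(1 / d) • (c - p)‖ = 1 := by
    rw [norm_smul, hcp, Real.norm_of_nonneg (by positivity)]
    field_simp
  have hnorm : ∀ y ∈ F, ‖y - p‖ = 2 := fun y hy => by
    rw [← dist_eq_norm, dist_comm]
    exact (hFC y hy).2
  obtain ⟨i, hi⟩ := hole (ι := {y // y ∈ F}) (by rw [Fintype.card_coe, hF])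
    (fun y => (1 / 2 : ℝ) • ((y : E3) - p))
    (fun y => by
      rw [norm_smul, hnorm y y.2]
      norm_num)
    (fun y w hyw => by
      have hyw' : (y : E3) ≠ w := fun e => hyw (Subtype.ext e)
      have h1 := h.packing y (hFC y y.2).1 w (hFC w w.2).1 hyw'
      have h2 := norm_sub_sq_real ((y : E3) - p) ((w : E3) - p)
      rw [hnorm y y.2, hnorm w w.2, sub_sub_sub_cancel_right, ← dist_eq_norm] at h2
      rw [real_inner_smul_left, real_inner_smul_right]
      nlinarith)
    ((1 / d) • (c - p)) hu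
  rw [real_inner_smul_left, real_inner_smul_right] at hi
  have h3 := norm_sub_sq_real (c - p) ((i : E3) - p)
  rw [hcp, hnorm i i.2, sub_sub_sub_cancel_right] at h3
  have h4 := hmin i (hFC i i.2).1
  rw [dist_comm (i : E3) c, dist_eq_norm] at h4
  have h5 : 7 / 15 * d < inner ℝ (c - p) ((i : E3) - p) := by
    have e : 1 / d * (1 / 2 * inner ℝ (c - p) ((i : E3) - p)) =
        (inner ℝ (c - p) ((i : E3) - p) / 2) / d := by ring
    rw [e, lt_div_iff₀ hd0] at hi
    linarith
  nlinarith

/-- Every point has twelve centres within distance `44/7`. -/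
lemma twelve {C : Set E3} (h : IsNeighbourPacking 11 C) (c : E3) :
    ∃ G : Finset E3, G.card = 12 ∧ ∀ x ∈ G, x ∈ C ∧ dist x c ≤ 44 / 7 := by
  classical
  obtain ⟨p, hp, hmin⟩ := exists_nearest h c
  have h1 := nearest_le h hp c hmin
  obtain ⟨F, hF, hFC⟩ := exists_eleven h hp
  have hpF : p ∉ F := fun hh => by
    have := (hFC p hh).2
    rw [dist_self] at this
    norm_num at this
  refine ⟨insert p F, by rw [Finset.card_insert_of_notMem hpF, hF], fun x hx => ?_⟩
  rcases Finset.mem_insert.1 hx with rfl | hx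
  · exact ⟨hp, by linarith⟩
  · refine ⟨(hFC x hx).1, ?_⟩
    have h2 := dist_triangle x p c
    rw [dist_comm x p, (hFC x hx).2] at h2
    linarith

lemma count_lower {C : Set E3} (h : IsNeighbourPacking 11 C) (r : ℝ) (hr : 44 / 7 ≤ r) :
    12 * (r - 44 / 7) ^ 3 ≤ ((cen C h.packing r).card : ℝ) * (44 / 7) ^ 3 := by
  classical
  set F := cen C h.packing r with hF
  set B := ball (0 : E3) (r - 44 / 7) with hB
  have key : ∀ c ∈ B, (12 : ENNReal) ≤
      ∑ x ∈ F, (closedBall x (44 / 7)).indicator (fun _ => (1 : ENNReal)) c := by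
    intro c hc
    rw [hB, mem_ball, dist_zero_right] at hc
    obtain ⟨G, hG, hGC⟩ := twelve h c
    have hsub : G ⊆ F.filter fun x => c ∈ closedBall x (44 / 7) := by
      intro x hx
      obtain ⟨h1, h2⟩ := hGC x hx
      rw [Finset.mem_filter, hF, mem_cen, mem_closedBall, dist_comm]
      refine ⟨⟨h1, ?_⟩, h2⟩
      calc ‖x‖ = ‖(x - c) + c‖ := by rw [sub_add_cancel]
        _ ≤ ‖x - c‖ + ‖c‖ := norm_add_le _ _
        _ ≤ r := by rw [dist_eq_norm] at h2; linarith
    have hcard := Finset.card_le_card hsub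
    rw [hG] at hcard
    have e : ∑ x ∈ F, (closedBall x (44 / 7)).indicator (fun _ => (1 : ENNReal)) c =
        ((F.filter fun x => c ∈ closedBall x (44 / 7)).card : ENNReal) := by
      simp only [Set.indicator_apply]
      rw [Finset.sum_boole]
    rw [e]
    exact_mod_cast hcard
  have h1 : 12 * volume B ≤ F.card * volume (closedBall (0 : E3) (44 / 7)) := by
    calc 12 * volume B = ∫⁻ _ in B, (12 : ENNReal) := by rw [setLIntegral_const]
      _ ≤ ∫⁻ c in B, ∑ x ∈ F, (closedBall x (44 / 7)).indicator (fun _ => (1 : ENNReal)) c :=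
          setLIntegral_mono' measurableSet_ball key
      _ = ∑ x ∈ F, ∫⁻ c in B, (closedBall x (44 / 7)).indicator (fun _ => (1 : ENNReal)) c := by
          rw [lintegral_finsetSum]
          intro x _
          exact measurable_const.indicator measurableSet_closedBall
      _ ≤ ∑ x ∈ F, volume (closedBall x (44 / 7)) := by
          refine Finset.sum_le_sum fun x _ => (setLIntegral_le_lintegral _ _).trans (le_of_eq ?_)
          rw [lintegral_indicator measurableSet_closedBall, setLIntegral_const, one_mul]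
      _ = F.card * volume (closedBall (0 : E3) (44 / 7)) := by
          simp only [EuclideanSpace.volume_closedBall_fin_three, Finset.sum_const, nsmul_eq_mul]
  have h2 := ENNReal.toReal_mono
    (ENNReal.mul_ne_top (ENNReal.natCast_ne_top _) measure_closedBall_lt_top.ne) h1
  rw [ENNReal.toReal_mul, ENNReal.toReal_mul, ← measureReal_def, ← measureReal_def, hB,
    vol_ball_real _ _ (by linarith), vol_closedBall_real _ _ (by norm_num)] at h2
  simp only [ENNReal.toReal_ofNat, ENNReal.toReal_natCast] at h2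
  have hpi : 0 < Real.pi * 4 / 3 := by positivity
  have h3 : 12 * (r - 44 / 7) ^ 3 * (Real.pi * 4 / 3) ≤
      (F.card : ℝ) * (44 / 7) ^ 3 * (Real.pi * 4 / 3) := by linarith
  exact le_of_mul_le_mul_right h3 hpi

/-- Eleven-neighbour packings have lower density at least `12 (7/44)^3 = 0.0483...`. -/
theorem lower {C : Set E3} (h : IsNeighbourPacking 11 C) :
    12 * (7 / 44) ^ 3 ≤ lowerDensity C := by
  refine le_lowerDensity C _ _ (lim_aux _ (-51 / 7)) ?_
  filter_upwards [eventually_gt_atTop (51 / 7)] with R hR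
  have hR0 : 0 < R := by linarith
  refine le_trans ?_ (le_covered C h.packing R hR0)
  have h1 := count_lower h (R - 1) (by linarith)
  rw [le_div_iff₀ (by positivity), mul_assoc, ← mul_pow]
  have e : (1 + -51 / 7 / R) * R = R - 51 / 7 := by
    field_simp
    ring
  rw [e]
  have e2 : R - 1 - 44 / 7 = R - 51 / 7 := by ring
  rw [e2] at h1
  have h2 : (7 / 44 : ℝ) ^ 3 * (44 / 7) ^ 3 = 1 := by norm_num
  have h3 : (0 : ℝ) ≤ (7 / 44) ^ 3 := by positivity
  nlinarith [mul_le_mul_of_nonneg_right h1 h3]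

theorem delta_bounds : 12 * (7 / 44) ^ 3 ≤ delta 11 ∧ delta 11 ≤ 12 / 13 * (Real.pi / √18) := by
  constructor
  · refine le_csInf ⟨lowerDensity P, P, P_isPacking, rfl⟩ ?_
    rintro d ⟨C, hC, rfl⟩
    exact lower hC
  · have hb : BddBelow {d | ∃ C : Set E3, IsNeighbourPacking 11 C ∧ d = lowerDensity C} := by
      refine ⟨0, ?_⟩
      rintro d ⟨C, _, rfl⟩
      exact lowerDensity_nonneg C
    exact (csInf_le hb ⟨P, P_isPacking, rfl⟩).trans P_density

end Pool.Agent.T6.H88.EN
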